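import Pool.Agent.Lib.MP_6fbcf6_al.Main

set_option autoImplicit false

/-!
Assembly of the argument over a field with enough derivations.
-/

namespace Pool.Agent.Eggert

open TensorProduct Module

section

variable {k K A : Type} [Field k] [Field K] [Algebra k K] [CommRing A] [Algebra k A]

/-- The subspace of elements of `I` orthogonal to `N` for the form twisted by `P`. -/
def VV (F : K ⊗[k] A →ₗ[K] K) (P : K ⊗[k] A) (IK NK : Submodule K (K ⊗[k] A)) :
    Submodule K (K ⊗[k] A) where
  carrier := {a | a ∈ IK ∧ ∀ n ∈ NK, F (P * a * n) = 0}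
  zero_mem' := ⟨IK.zero_mem, fun n _ => by simp⟩
  add_mem' := by
    rintro x y ⟨hx, hx'⟩ ⟨hy, hy'⟩
    exact ⟨IK.add_mem hx hy, fun n hn => by
      rw [mul_add, add_mul, map_add, hx' n hn, hy' n hn, add_zero]⟩
  smul_mem' := by
    rintro c x ⟨hx, hx'⟩
    exact ⟨IK.smul_mem c hx, fun n hn => by
      rw [mul_smul_comm, smul_mul_assoc, map_smul, hx' n hn, smul_zero]⟩

lemma mem_VV {F : K ⊗[k] A →ₗ[K] K} {P : K ⊗[k] A} {IK NK : Submodule K (K ⊗[k] A)}
    {a : K ⊗[k] A} : a ∈ VV F P IK NK ↔ a ∈ IK ∧ ∀ n ∈ NK, F (P * a * n) = 0 := Iff.rfl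

variable [FiniteDimensional k A]
variable (p : ℕ) [Fact p.Prime] [CharP k p] [PerfectRing k p] [CharP A p]
  [CharP K p] [CharP (K ⊗[k] A) p] (I : Ideal A)

/-- The generic elements of `L`. -/
noncomputable def th (u : ℕ → Fin (finrank k (Ls k p I)) → K) (j : ℕ) : K ⊗[k] A :=
  ∑ m, u j m • ((1 : K) ⊗ₜ[k] ((Module.finBasis k (Ls k p I) m : Ls k p I) : A))

omit [FiniteDimensional k A] [CharP k p] [PerfectRing k p] [CharP K p]
  [CharP (K ⊗[k] A) p] in
lemma mul_mem_NK {x y : K ⊗[k] A} (hy : y ∈ bc K (Ns k p I)) : x * y ∈ bc K (Ns k p I) := by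
  have hx : x ∈ bc K (⊤ : Submodule k A) := by
    rw [bc, Submodule.baseChange_top]; trivial
  exact mul_mem_bc (fun a _ b hb => mul_mem_Ns I p hb) hx hy

omit [FiniteDimensional k A] [CharP k p] [PerfectRing k p] [CharP K p]
  [CharP (K ⊗[k] A) p] in
lemma mul_mem_NK' {x y : K ⊗[k] A} (hx : x ∈ bc K (Is k I)) (hy : y ∈ bc K (Ls k p I)) :
    x * y ∈ bc K (Ns k p I) :=
  mul_mem_bc (U := Is k I) (V := Ls k p I) (W := Ns k p I)
    (fun a ha b hb => (show b ∈ I ∧ ∀ c ∈ I, c * b ∈ Ns k p I from hb).2 a ha) hx hy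

theorem assembly (q : ℕ) (hq : p = q + 2)
    (s : Fin (finrank k A) → K) (u : ℕ → Fin (finrank k (Ls k p I)) → K)
    (hDs : ∀ j, ∃ D : Derivation k K K, ∀ i, D (s i) = if j = i then 1 else 0)
    (hDu : ∀ j m, ∃ D : Derivation k K K, (∀ i, D (s i) = 0) ∧
      ∀ j' m', D (u j' m') = if j = j' ∧ m = m' then 1 else 0)
    (n : ℕ) (hn : I ^ n = ⊥) [Nontrivial A] :
    (q + 1) * finrank k (Is k I) ≤ (q + 2) * finrank k (Ns k p I) := by
  classical
  have hp : p ≠ 0 := by omega
  set e := Module.finBasis k A with he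
  set F := lf K (gfun e s) with hF
  set θ := th (K := K) p I u with hθ
  set IK := bc K (Is k I) with hIK
  set NK := bc K (Ns k p I) with hNK
  set LK := bc K (Ls k p I) with hLK
  set SK := bc K (Ss k I) with hSK
  have hFD : ∀ D : Derivation k K K, (∀ i, D (s i) = 0) → ∀ x, D (F x) = F (dd D x) := by
    intro D hD x
    rw [hF, D_lf, D_gfun_const e s D hD]
    simp [lf]
  have hθmem : ∀ j, θ j ∈ LK := by
    intro j
    rw [hθ, th]
    refine Submodule.sum_mem _ fun m _ => Submodule.smul_mem _ _ ?_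
    exact tmul_mem_bc _ (Subtype.mem _)
  have hNI : NK ≤ IK := bc_mono (Ns_le I p)
  have hLI : LK ≤ IK := bc_mono (Ls_le I p)
  have hR : ∀ (b : A) (x : K ⊗[k] A), x ∈ LK →
      (∀ v ∈ LK, F (PP θ q * x * v * ((1 : K) ⊗ₜ[k] b)) = 0) →
      x ^ p * ((1 : K) ⊗ₜ[k] b) = 0 := by
    intro b x hx h
    apply factA e s p hp hDs x b
    rw [hq]
    refine lemmaR θ (Ls k p I) (fun m => ((Module.finBasis k (Ls k p I) m : Ls k p I) : A))
      ?_ F ?_ q b x hx h
    · have h1 := (Module.finBasis k (Ls k p I)).span_eq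
      have h2 := congrArg (Submodule.map (Ls k p I).subtype) h1
      rw [Submodule.map_span, Submodule.map_top, Submodule.range_subtype, ← Set.range_comp] at h2
      exact h2
    · intro j m
      obtain ⟨D, hD1, hD2⟩ := hDu j m
      have h3 : ∀ j', dd D (θ j') = if j = j' then (1 : K) ⊗ₜ[k]
          ((Module.finBasis k (Ls k p I) m : Ls k p I) : A) else 0 := by
        intro j'
        rw [hθ, th, map_sum]
        have h4 : ∀ m', dd D (u j' m' • ((1 : K) ⊗ₜ[k]
            ((Module.finBasis k (Ls k p I) m' : Ls k p I) : A)))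
            = (if j = j' ∧ m = m' then (1 : K) else 0) • ((1 : K) ⊗ₜ[k]
            ((Module.finBasis k (Ls k p I) m' : Ls k p I) : A)) := by
          intro m'
          rw [dd_smul, dd_one_tmul, smul_zero, add_zero, hD2]
        rw [Finset.sum_congr rfl fun m' _ => h4 m']
        by_cases hj : j = j'
        · simp [hj]
        · simp [hj]
      refine ⟨D, hFD D hD1, ?_, ?_⟩
      · rw [h3, if_pos rfl]
      · intro i hi
        rw [h3, if_neg (by omega)]
  -- the vanishing of a `p`-th power gives membership in `NK`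
  have hN1 : ∀ x ∈ IK, (∀ v ∈ LK, F (PP θ q * x * v) = 0) → x ∈ LK → x ∈ NK := by
    intro x hx h hxL
    apply desc_N p I x hx
    have h1 := hR 1 x hxL (fun v hv => by
      have : ((1 : K) ⊗ₜ[k] (1 : A)) = 1 := rfl
      rw [this, mul_one]; exact h v hv)
    have h2 : ((1 : K) ⊗ₜ[k] (1 : A)) = 1 := rfl
    rw [h2, mul_one] at h1
    exact h1
  set V : ℕ → Submodule K (K ⊗[k] A) := fun j => VV F (PP θ j) IK NK with hV
  have hVI : ∀ j, V j ≤ IK := fun j a ha => ha.1
  -- `V j ≤ V (j+1)`
  have hVmono : ∀ j, V j ≤ V (j + 1) := by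
    intro j a ha
    refine ⟨ha.1, fun m hm => ?_⟩
    have h1 := ha.2 (θ j * m) (mul_mem_NK p I hm)
    rw [PP_succ]
    have h2 : PP θ j * θ j * a * m = PP θ j * a * (θ j * m) := by ring
    rw [h2]; exact h1
  have hVle : ∀ j, j ≤ q → V j ≤ V q := fun j hj => monotone_nat_of_le_succ hVmono hj
  have hn0 : n ≠ 0 := by
    rintro rfl
    rw [pow_zero, Ideal.one_eq_top] at hn
    exact top_ne_bot hn
  -- `V q ≤ LK`
  have hVmul : ∀ a ∈ V q, ∀ d t, t + d = n → 1 ≤ t → ∀ b ∈ I ^ t,
      ((1 : K) ⊗ₜ[k] b) * a ∈ NK := by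
    intro a ha d
    induction d with
    | zero =>
      intro t ht _ b hb
      have : t = n := by omega
      rw [this, hn, Submodule.mem_bot] at hb
      rw [hb, TensorProduct.tmul_zero, zero_mul]
      exact Submodule.zero_mem _
    | succ d ih =>
      intro t ht ht1 b hb
      have hbI : b ∈ I := Ideal.pow_le_self (by omega) hb
      have hlI : ((1 : K) ⊗ₜ[k] b) * a ∈ IK :=
        mul_mem_bc (W := Is k I) (U := Is k I) (V := Is k I)
          (fun x hx y hy => I.mul_mem_left x hy) (tmul_mem_bc _ hbI) ha.1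
      have hlL : ((1 : K) ⊗ₜ[k] b) * a ∈ LK := by
        refine desc_L p I _ hlI ?_
        intro b' hb'
        have h1 := ih (t + 1) (by omega) (by omega) (b' * b) (by
          rw [pow_succ, mul_comm b' b]; exact Ideal.mul_mem_mul hb hb')
        have h2 : ((1 : K) ⊗ₜ[k] b') * (((1 : K) ⊗ₜ[k] b) * a)
            = ((1 : K) ⊗ₜ[k] (b' * b)) * a := by
          rw [← mul_assoc, Algebra.TensorProduct.tmul_mul_tmul, mul_one]
        rw [h2]; exact h1
      refine hN1 _ hlI ?_ hlL
      intro v hv
      have h3 : ((1 : K) ⊗ₜ[k] b) * v ∈ NK := mul_mem_NK' p I (tmul_mem_bc _ hbI) hv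
      have h4 := ha.2 _ h3
      have h5 : PP θ q * (((1 : K) ⊗ₜ[k] b) * a) * v = PP θ q * a * (((1 : K) ⊗ₜ[k] b) * v) := by
        ring
      rw [h5]; exact h4
  have hVL : V q ≤ LK := by
    intro a ha
    refine desc_L p I a ha.1 ?_
    intro b hb
    exact hVmul a ha (n - 1) 1 (by omega) le_rfl b (by rw [pow_one]; exact hb)
  -- `V j ≤ NK` for `j < q`
  have hVN : ∀ j, j < q → V j ≤ NK := by
    intro j hj a ha
    refine hN1 a ha.1 ?_ (hVL (hVle j hj.le ha))
    have h1 : ∀ i, j + i ≤ q → ∀ x ∈ NK, F (PP θ (j + i) * a * x) = 0 := by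
      intro i hi x hx
      exact (monotone_nat_of_le_succ hVmono (Nat.le_add_right j i) ha).2 x hx
    intro v hv
    obtain ⟨q', rfl⟩ := Nat.exists_eq_succ_of_ne_zero (by omega : q ≠ 0)
    have h2 : θ q' * v ∈ NK := mul_mem_NK' p I (hLI (hθmem q')) hv
    have h3 := (monotone_nat_of_le_succ hVmono (by omega : j ≤ q') ha).2 _ h2
    have h4 : PP θ (q' + 1) * a * v = PP θ q' * a * (θ q' * v) := by rw [PP_succ]; ring
    rw [Nat.succ_eq_add_one, h4]; exact h3
  -- `p`-th powers of elements of `V q`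
  have hVp : ∀ a ∈ V q, a ^ p ∈ SK := by
    intro a ha
    refine desc_S I _ ?_ ?_
    · have h1 : ∀ i, a ^ (i + 1) ∈ IK := by
        intro i
        induction i with
        | zero => rw [zero_add, pow_one]; exact ha.1
        | succ i ih =>
          rw [pow_succ]
          exact mul_mem_bc (W := Is k I) (U := Is k I) (V := Is k I)
            (fun x hx y hy => I.mul_mem_left x hy) ih ha.1
      rw [hq]; exact h1 (q + 1)
    · intro b hb
      rw [mul_comm]
      refine hR b a (hVL ha) ?_
      intro v hv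
      have h3 : v * ((1 : K) ⊗ₜ[k] b) ∈ NK := by
        rw [mul_comm]; exact mul_mem_NK' p I (tmul_mem_bc _ hb) hv
      have h4 := ha.2 _ h3
      rw [mul_assoc (PP θ q * a)]; exact h4
  -- dimension counts
  have hdimV0 : finrank K IK + finrank K SK ≤ finrank K (V 0) + finrank K NK := by
    refine dim_pair ((LinearMap.mul K (K ⊗[k] A)).compr₂ F) IK NK SK (V 0)
      (bc_mono (Ss_le_Ns I p)) ?_ ?_
    · intro a ha b hb
      have h1 : a * b ∈ bc K (⊥ : Submodule k A) :=
        mul_mem_bc (U := Is k I) (V := Ss k I) (W := ⊥)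
          (fun x hx y hy => by
            rw [Submodule.mem_bot]
            exact (show y ∈ I ∧ ∀ c ∈ I, c * y = 0 from hy).2 x hx) ha hb
      rw [bc, Submodule.baseChange_bot, Submodule.mem_bot] at h1
      change F (a * b) = 0
      rw [h1, map_zero]
    · intro a ha h
      refine ⟨ha, fun m hm => ?_⟩
      rw [PP_zero, one_mul]
      exact h m hm
  have hstep : ∀ j, j < q →
      finrank K IK + finrank K (V j) ≤ finrank K (V (j + 1)) + finrank K NK := by
    intro j hj
    refine dim_step (LinearMap.mulLeft K (θ j)) IK NK (V j) (V (j + 1)) ?_ (hVN j hj) ?_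
    · intro a ha
      rw [LinearMap.mulLeft_apply, mul_comm]
      exact mul_mem_NK' p I ha (hθmem j)
    · intro a ha h
      refine ⟨ha, fun m hm => ?_⟩
      have h1 := h.2 m hm
      rw [LinearMap.mulLeft_apply] at h1
      have h2 : PP θ (j + 1) * a * m = PP θ j * (θ j * a) * m := by rw [PP_succ]; ring
      rw [h2]; exact h1
  have hdimVq : finrank K (V q) ≤ finrank K NK + finrank K SK := by
    set c := Module.finBasis k (Ss k I) with hc
    have hg : ∀ r, ∃ g : A →ₗ[k] k, g ∘ₗ (Ss k I).subtype = c.coord r :=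
      fun r => LinearMap.exists_extend (c.coord r)
    choose g hg using hg
    have h1 := dim_ker (fun r => gK K (rt p (g r))) (V q) NK ?_
    · rw [Fintype.card_fin] at h1
      have e3 : finrank K SK = finrank k (Ss k I) := finrank_bc _
      rw [e3]; exact h1
    · intro a ha h
      apply desc_N p I a ha.1
      have h2 : a ^ p ∈ bc K (⊥ : Submodule k A) := by
        refine mem_bc_of_functionals g (Ss k I) ⊥ ?_ (a ^ p) (hVp a ha) ?_
        · intro x hx hx0
          rw [Submodule.mem_bot]
          have h3 : (⟨x, hx⟩ : Ss k I) = 0 := by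
            apply c.forall_coord_eq_zero_iff.mp
            intro r
            rw [← hg r]; exact hx0 r
          exact congrArg Subtype.val h3
        · intro r
          rw [← gK_rt_pow p (g r) a, h r, zero_pow hp]
      rw [bc, Submodule.baseChange_bot, Submodule.mem_bot] at h2
      exact h2
  have hall : ∀ j, j ≤ q → (j + 1) * finrank K IK + finrank K SK
      ≤ finrank K (V j) + (j + 1) * finrank K NK := by
    intro j
    induction j with
    | zero => intro _; simpa using hdimV0
    | succ j ih =>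
      intro hj
      have h1 := ih (by omega)
      have h2 := hstep j (by omega)
      have h3 : (j + 1 + 1) * finrank K IK = (j + 1) * finrank K IK + finrank K IK := by ring
      have h4 : (j + 1 + 1) * finrank K NK = (j + 1) * finrank K NK + finrank K NK := by ring
      omega
  have hfin := hall q le_rfl
  have e1 : finrank K IK = finrank k (Is k I) := finrank_bc _
  have e2 : finrank K NK = finrank k (Ns k p I) := finrank_bc _
  rw [← e1, ← e2]
  have h4 : (q + 2) * finrank K NK = (q + 1) * finrank K NK + finrank K NK := by ring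
  omega

end

end Pool.Agent.Eggert
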