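import Pool.Agent.Lib.MP_6fbcf6_al.Root

set_option autoImplicit false

/-!
The generic functional, the generic elements and the key vanishing lemma.
-/

namespace Pool.Agent.Eggert

open TensorProduct

section

variable {k K A : Type} [Field k] [Field K] [Algebra k K] [CommRing A] [Algebra k A]
variable {J : Type} [Fintype J] (e : Module.Basis J k A) (s : J → K)

/-- The generic functional on `A` with values in `K`. -/
noncomputable def gfun : A →ₗ[k] K :=
  ∑ i, s i • ((Algebra.linearMap k K) ∘ₗ e.coord i)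

lemma gfun_apply (a : A) : gfun e s a = ∑ i, s i * algebraMap k K (e.coord i a) := by
  rw [gfun, LinearMap.sum_apply]
  refine Finset.sum_congr rfl fun i _ => ?_
  simp

lemma D_gfun_const (D : Derivation k K K) (hD : ∀ i, D (s i) = 0) :
    ((D : K →ₗ[k] K) ∘ₗ gfun e s) = 0 := by
  ext a
  simp only [LinearMap.comp_apply, gfun_apply, map_sum, LinearMap.zero_apply]
  refine Finset.sum_eq_zero fun i _ => ?_
  change D (s i * algebraMap k K (e.coord i a)) = 0
  rw [Derivation.leibniz, Derivation.map_algebraMap, hD i]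
  simp

lemma D_gfun_coord [DecidableEq J] (D : Derivation k K K) (j : J) (hD : ∀ i, D (s i) = if j = i then 1 else 0) :
    ((D : K →ₗ[k] K) ∘ₗ gfun e s) = (Algebra.linearMap k K) ∘ₗ e.coord j := by
  ext a
  simp only [LinearMap.comp_apply, gfun_apply, map_sum]
  rw [Finset.sum_eq_single j]
  · change D (s j * algebraMap k K (e.coord j a)) = _
    rw [Derivation.leibniz, Derivation.map_algebraMap, hD j]
    simp
  · intro i _ hi
    change D (s i * algebraMap k K (e.coord i a)) = 0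
    rw [Derivation.leibniz, Derivation.map_algebraMap, hD i, if_neg (Ne.symm hi)]
    simp
  · intro h; exact absurd (Finset.mem_univ j) h

/-- The generic functional is injective on `p`-th powers (times constants). -/
lemma factA [DecidableEq J] (p : ℕ) (hp : p ≠ 0) [CharP (K ⊗[k] A) p]
    (hDs : ∀ j : J, ∃ D : Derivation k K K, ∀ i, D (s i) = if j = i then 1 else 0)
    (x : K ⊗[k] A) (b : A) (h : lf K (gfun e s) (x ^ p * ((1 : K) ⊗ₜ[k] b)) = 0) :
    x ^ p * ((1 : K) ⊗ₜ[k] b) = 0 := by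
  refine eq_zero_of_functionals e _ fun j => ?_
  obtain ⟨D, hD⟩ := hDs j
  have h1 := D_lf D (gfun e s) (x ^ p * ((1 : K) ⊗ₜ[k] b))
  rw [h, map_zero, D_gfun_coord e s D j hD, dd_mul, dd_one_tmul, dd_pow_char D p hp] at h1
  rw [gK]
  simpa using h1.symm

/-- The product of the first `j` generic elements. -/
noncomputable def PP (θ : ℕ → K ⊗[k] A) (j : ℕ) : K ⊗[k] A := ∏ i ∈ Finset.range j, θ i

lemma PP_succ (θ : ℕ → K ⊗[k] A) (j : ℕ) : PP θ (j + 1) = PP θ j * θ j := by
  rw [PP, PP, Finset.prod_range_succ]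

lemma PP_zero (θ : ℕ → K ⊗[k] A) : PP θ 0 = 1 := by simp [PP]

lemma dd_PP (D : Derivation k K K) (θ : ℕ → K ⊗[k] A) (j : ℕ) (h : ∀ i < j, dd D (θ i) = 0) :
    dd D (PP θ j) = 0 := by
  induction j with
  | zero =>
    rw [PP_zero]
    exact dd_one_tmul D 1
  | succ j ih =>
    rw [PP_succ, dd_mul, ih (fun i hi => h i (by omega)), h j (by omega)]
    simp

/-- Key lemma: an element of `L` which is in the radical of the generic form. -/
lemma lemmaR {M : Type} (θ : ℕ → K ⊗[k] A) (L : Submodule k A) (l : M → A)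
    (hl : Submodule.span k (Set.range l) = L) (F : K ⊗[k] A →ₗ[K] K)
    (hD : ∀ (j : ℕ) (m : M), ∃ D : Derivation k K K,
      (∀ x, D (F x) = F (dd D x)) ∧ dd D (θ j) = (1 : K) ⊗ₜ[k] l m ∧ ∀ i < j, dd D (θ i) = 0)
    (q : ℕ) (b : A) (x : K ⊗[k] A) (hx : x ∈ bc K L)
    (h : ∀ v ∈ bc K L, F (PP θ q * x * v * ((1 : K) ⊗ₜ[k] b)) = 0) :
    F (x ^ (q + 2) * ((1 : K) ⊗ₜ[k] b)) = 0 := by
  have key : ∀ t j, j + t = q → ∀ v ∈ bc K L,
      F (PP θ j * x ^ (t + 1) * v * ((1 : K) ⊗ₜ[k] b)) = 0 := by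
    intro t
    induction t with
    | zero =>
      intro j hj v hv
      have : j = q := by omega
      subst this
      rw [zero_add, pow_one]; exact h v hv
    | succ t ih =>
      intro j hj v hv
      have ih' := ih (j + 1) (by omega)
      -- reduce to `v` a basis element
      have hbase : ∀ m : M, F (PP θ j * x ^ (t + 1 + 1) * ((1 : K) ⊗ₜ[k] l m)
          * ((1 : K) ⊗ₜ[k] b)) = 0 := by
        intro m
        obtain ⟨D, hDF, hDj, hDi⟩ := hD j m
        have h1 := ih' x hx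
        have h2 := hDF (PP θ (j + 1) * x ^ (t + 1) * x * ((1 : K) ⊗ₜ[k] b))
        rw [h1, map_zero] at h2
        have h3 := ih' (dd D x) (dd_mem_bc D hx)
        have h4 : dd D (PP θ (j + 1) * x ^ (t + 1) * x * ((1 : K) ⊗ₜ[k] b))
            = PP θ j * x ^ (t + 1 + 1) * ((1 : K) ⊗ₜ[k] l m) * ((1 : K) ⊗ₜ[k] b)
              + ((t + 1 + 1 : ℕ) : K) •
                (PP θ (j + 1) * x ^ (t + 1) * dd D x * ((1 : K) ⊗ₜ[k] b)) := by
          have h5 : PP θ (j + 1) * x ^ (t + 1) * x * ((1 : K) ⊗ₜ[k] b)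
              = PP θ j * (θ j * (x ^ (t + 1 + 1) * ((1 : K) ⊗ₜ[k] b))) := by
            rw [PP_succ]; ring
          rw [h5, dd_mul, dd_PP D θ j hDi, dd_mul, hDj, dd_mul, dd_one_tmul, dd_pow, PP_succ,
            Nat.cast_smul_eq_nsmul, nsmul_eq_mul]
          push_cast
          ring
        rw [h4, map_add, map_smul, h3, smul_zero, add_zero] at h2
        exact h2.symm
      have hlin : ∀ a ∈ L, F (PP θ j * x ^ (t + 1 + 1) * ((1 : K) ⊗ₜ[k] a)
          * ((1 : K) ⊗ₜ[k] b)) = 0 := by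
        intro a ha
        rw [← hl] at ha
        refine Submodule.span_induction (p := fun a _ => F (PP θ j * x ^ (t + 1 + 1) *
          ((1 : K) ⊗ₜ[k] a) * ((1 : K) ⊗ₜ[k] b)) = 0) ?_ ?_ ?_ ?_ ha
        · rintro _ ⟨m, rfl⟩; exact hbase m
        · simp
        · intro a c _ _ ha hc
          rw [TensorProduct.tmul_add, mul_add, add_mul, map_add, ha, hc, add_zero]
        · intro c a _ ha
          have : PP θ j * x ^ (t + 1 + 1) * ((1 : K) ⊗ₜ[k] (c • a)) * ((1 : K) ⊗ₜ[k] b)
              = (algebraMap k K c) • (PP θ j * x ^ (t + 1 + 1) * ((1 : K) ⊗ₜ[k] a)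
                * ((1 : K) ⊗ₜ[k] b)) := by
            rw [TensorProduct.tmul_smul, algebraMap_smul, mul_smul_comm, smul_mul_assoc]
          rw [this, map_smul, ha, smul_zero]
      refine bc_induction (P := fun v => F (PP θ j * x ^ (t + 1 + 1) * v
          * ((1 : K) ⊗ₜ[k] b)) = 0) ?_ ?_ ?_ v hv
      · simp
      · intro y z hy hz
        rw [mul_add, add_mul, map_add, hy, hz, add_zero]
      · intro c a ha
        have : PP θ j * x ^ (t + 1 + 1) * (c ⊗ₜ[k] a) * ((1 : K) ⊗ₜ[k] b)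
            = c • (PP θ j * x ^ (t + 1 + 1) * ((1 : K) ⊗ₜ[k] a) * ((1 : K) ⊗ₜ[k] b)) := by
          have hc : c ⊗ₜ[k] a = c • ((1 : K) ⊗ₜ[k] a) := by
            rw [TensorProduct.smul_tmul', smul_eq_mul, mul_one]
          rw [hc, mul_smul_comm, smul_mul_assoc]
        rw [this, map_smul, hlin a ha, smul_zero]
  have h1 := key q 0 (by omega) x hx
  rw [PP_zero, one_mul, ← pow_succ] at h1
  exact h1

end

end Pool.Agent.Eggert
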