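import Mathlib

set_option autoImplicit false

/-!
A purely transcendental extension field with its coordinate derivations.
-/

namespace Pool.Agent.Eggert

open MvPolynomial

/-- The rational function field in the variables `ι`. -/
abbrev RF (k : Type) [Field k] (ι : Type) : Type := FractionRing (MvPolynomial ι k)

section

variable (k : Type) [Field k] (ι : Type)

/-- The `j`-th variable in the rational function field. -/
noncomputable def sv (j : ι) : RF k ι := algebraMap (MvPolynomial ι k) (RF k ι) (X j)

/-- The ring map `a ↦ a + ε ∂a` from polynomials to dual numbers over the fraction field. -/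
noncomputable def dualHom [DecidableEq ι] (i : ι) : MvPolynomial ι k →ₐ[k] DualNumber (RF k ι) :=
  MvPolynomial.aeval (fun j => TrivSqZeroExt.inl (sv k ι j) + if i = j then DualNumber.eps else 0)

lemma dualHom_fst [DecidableEq ι] (i : ι) (a : MvPolynomial ι k) :
    (dualHom k ι i a).fst = algebraMap (MvPolynomial ι k) (RF k ι) a := by
  have h : (TrivSqZeroExt.fstHom k (RF k ι) (RF k ι)).comp (dualHom k ι i)
      = (IsScalarTower.toAlgHom k (MvPolynomial ι k) (RF k ι)) := by
    apply MvPolynomial.algHom_ext
    intro j
    simp only [dualHom, AlgHom.comp_apply, MvPolynomial.aeval_X, IsScalarTower.toAlgHom_apply,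
      TrivSqZeroExt.fstHom_apply, TrivSqZeroExt.fst_add, TrivSqZeroExt.fst_inl, sv]
    split_ifs <;> simp
  exact DFunLike.congr_fun h a

lemma dualHom_unit [DecidableEq ι] (i : ι) (a : nonZeroDivisors (MvPolynomial ι k)) :
    IsUnit ((dualHom k ι i : MvPolynomial ι k →+* DualNumber (RF k ι)) a) := by
  rw [TrivSqZeroExt.isUnit_iff_isUnit_fst]
  have h := dualHom_fst k ι i (a : MvPolynomial ι k)
  have h2 : ((dualHom k ι i : MvPolynomial ι k →+* DualNumber (RF k ι)) a).fst
      = algebraMap (MvPolynomial ι k) (RF k ι) a := h
  rw [h2]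
  exact IsLocalization.map_units (RF k ι) a

/-- Extension of `dualHom` to the fraction field. -/
noncomputable def dualLift [DecidableEq ι] (i : ι) : RF k ι →+* DualNumber (RF k ι) :=
  IsLocalization.lift (M := nonZeroDivisors (MvPolynomial ι k)) (dualHom_unit k ι i)

lemma dualLift_algebraMap [DecidableEq ι] (i : ι) (a : MvPolynomial ι k) :
    dualLift k ι i (algebraMap (MvPolynomial ι k) (RF k ι) a) = dualHom k ι i a := by
  exact IsLocalization.lift_eq (M := nonZeroDivisors (MvPolynomial ι k)) (dualHom_unit k ι i) a

lemma dualLift_fst [DecidableEq ι] (i : ι) (x : RF k ι) : (dualLift k ι i x).fst = x := by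
  have h : ((TrivSqZeroExt.fstHom (RF k ι) (RF k ι) (RF k ι)) :
        DualNumber (RF k ι) →+* RF k ι).comp (dualLift k ι i)
      = RingHom.id (RF k ι) := by
    apply IsLocalization.ringHom_ext (nonZeroDivisors (MvPolynomial ι k))
    refine RingHom.ext fun a => ?_
    simp only [RingHom.comp_apply, RingHom.id_apply]
    rw [dualLift_algebraMap]
    exact dualHom_fst k ι i _
  exact DFunLike.congr_fun h x

/-- The coordinate derivations of the rational function field. -/
noncomputable def DD [DecidableEq ι] (i : ι) : Derivation k (RF k ι) (RF k ι) where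
  toFun x := (dualLift k ι i x).snd
  map_add' x y := by simp
  map_smul' c x := by
    have hc : dualLift k ι i (algebraMap k (RF k ι) c) = TrivSqZeroExt.inl (algebraMap k (RF k ι) c) := by
      rw [IsScalarTower.algebraMap_apply k (MvPolynomial ι k) (RF k ι), dualLift_algebraMap]
      have := (dualHom k ι i).commutes c
      rw [MvPolynomial.algebraMap_eq] at this ⊢
      rw [this, ← MvPolynomial.algebraMap_eq, ← IsScalarTower.algebraMap_apply]
      rfl
    rw [Algebra.smul_def, map_mul, hc]
    simp [Algebra.smul_def]
  map_one_eq_zero' := by simp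
  leibniz' x y := by
    simp only [map_mul, TrivSqZeroExt.snd_mul, dualLift_fst, LinearMap.coe_mk, AddHom.coe_mk]
    simp [mul_comm]

lemma DD_sv [DecidableEq ι] (i j : ι) : DD k ι i (sv k ι j) = if i = j then 1 else 0 := by
  change (dualLift k ι i (sv k ι j)).snd = _
  rw [sv, dualLift_algebraMap, dualHom, MvPolynomial.aeval_X]
  split_ifs <;> simp

end

end Pool.Agent.Eggert
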