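import Mathlib

set_option autoImplicit false

/-!
Three dimension counts.
-/

namespace Pool.Agent.Eggert

open Module

section

variable {K V : Type} [Field K] [AddCommGroup V] [Module K V] [FiniteDimensional K V]

lemma finrank_ker_le {W : Type} [AddCommGroup W] [Module K W] (I V'' : Submodule K V)
    (φ : I →ₗ[K] W) (h : ∀ a : I, φ a = 0 → (a : V) ∈ V'') :
    finrank K (LinearMap.ker φ) ≤ finrank K V'' := by
  rw [← Submodule.finrank_map_subtype_eq I (LinearMap.ker φ)]
  apply Submodule.finrank_mono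
  rintro _ ⟨a, ha, rfl⟩
  exact h a ha

lemma dim_step (T : V →ₗ[K] V) (I N V' V'' : Submodule K V) (hT : ∀ a ∈ I, T a ∈ N)
    (hV' : V' ≤ N) (hV'' : ∀ a ∈ I, T a ∈ V' → a ∈ V'') :
    finrank K I + finrank K V' ≤ finrank K V'' + finrank K N := by
  set φ : I →ₗ[K] (N ⧸ (V'.comap N.subtype)) :=
    (V'.comap N.subtype).mkQ ∘ₗ (T.restrict hT) with hφ
  have h1 := LinearMap.finrank_range_add_finrank_ker φ
  have h2 : finrank K (LinearMap.range φ) ≤ finrank K (N ⧸ (V'.comap N.subtype)) :=
    Submodule.finrank_le _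
  have h3 := Submodule.finrank_quotient_add_finrank (V'.comap N.subtype)
  have h4 : finrank K (V'.comap N.subtype) = finrank K V' :=
    LinearEquiv.finrank_eq (Submodule.comapSubtypeEquivOfLe hV')
  have h5 : finrank K (LinearMap.ker φ) ≤ finrank K V'' := by
    refine finrank_ker_le I V'' φ ?_
    intro a ha
    apply hV'' a a.2
    rw [hφ, LinearMap.comp_apply, Submodule.mkQ_apply, Submodule.Quotient.mk_eq_zero,
      Submodule.mem_comap] at ha
    exact ha
  omega

lemma dim_pair (B : V →ₗ[K] V →ₗ[K] K) (I N S V0 : Submodule K V) (hS : S ≤ N)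
    (hB : ∀ a ∈ I, ∀ b ∈ S, B a b = 0) (hV0 : ∀ a ∈ I, (∀ b ∈ N, B a b = 0) → a ∈ V0) :
    finrank K I + finrank K S ≤ finrank K V0 + finrank K N := by
  set φ : I →ₗ[K] Dual K N := (LinearMap.lcomp K K N.subtype) ∘ₗ B ∘ₗ I.subtype with hφ
  have hφa : ∀ (a : I) (b : N), φ a b = B a b := fun a b => rfl
  have h1 := LinearMap.finrank_range_add_finrank_ker φ
  have h2 : finrank K (LinearMap.range φ)
      ≤ finrank K (S.comap N.subtype).dualAnnihilator := by
    apply Submodule.finrank_mono
    rintro _ ⟨a, rfl⟩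
    rw [Submodule.mem_dualAnnihilator]
    intro b hb
    rw [hφa]
    exact hB a a.2 b hb
  have h3 := Subspace.finrank_add_finrank_dualAnnihilator_eq (S.comap N.subtype)
  have h4 : finrank K (S.comap N.subtype) = finrank K S :=
    LinearEquiv.finrank_eq (Submodule.comapSubtypeEquivOfLe hS)
  have h5 : finrank K (LinearMap.ker φ) ≤ finrank K V0 := by
    refine finrank_ker_le I V0 φ ?_
    intro a ha
    apply hV0 a a.2
    intro b hb
    have := DFunLike.congr_fun ha ⟨b, hb⟩
    rw [hφa] at this
    exact this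
  omega

lemma dim_ker {J : Type} [Fintype J] (h : J → (V →ₗ[K] K)) (W N : Submodule K V)
    (hW : ∀ a ∈ W, (∀ j, h j a = 0) → a ∈ N) :
    finrank K W ≤ finrank K N + Fintype.card J := by
  set φ : W →ₗ[K] (J → K) := (LinearMap.pi h) ∘ₗ W.subtype with hφ
  have h1 := LinearMap.finrank_range_add_finrank_ker φ
  have h2 : finrank K (LinearMap.range φ) ≤ finrank K (J → K) := Submodule.finrank_le _
  rw [Module.finrank_fintype_fun_eq_card] at h2
  have h5 : finrank K (LinearMap.ker φ) ≤ finrank K N := by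
    refine finrank_ker_le W N φ ?_
    intro a ha
    apply hW a a.2
    intro j
    exact congrFun ha j
  omega

end

end Pool.Agent.Eggert
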