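import Pool.Agent.Lib.MP_6fbcf6_al.DField

set_option autoImplicit false

/-!
Base change of a finite dimensional commutative algebra to a field with derivations.
-/

namespace Pool.Agent.Eggert

open TensorProduct

section

variable {k K A : Type} [Field k] [Field K] [Algebra k K] [CommRing A] [Algebra k A]

/-- The derivation `D ⊗ id` of `K ⊗ A`. -/
noncomputable def dd (D : Derivation k K K) : K ⊗[k] A →ₗ[k] K ⊗[k] A :=
  LinearMap.rTensor A (D : K →ₗ[k] K)

lemma dd_tmul (D : Derivation k K K) (c : K) (a : A) :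
    dd D (c ⊗ₜ[k] a) = (D c) ⊗ₜ[k] a := rfl

lemma dd_mul (D : Derivation k K K) (x y : K ⊗[k] A) :
    dd D (x * y) = x * dd D y + dd D x * y := by
  induction x using TensorProduct.induction_on with
  | zero => simp
  | add x1 x2 h1 h2 => rw [add_mul, map_add, h1, h2, map_add]; ring
  | tmul c a =>
    induction y using TensorProduct.induction_on with
    | zero => simp
    | add y1 y2 h1 h2 => rw [mul_add, map_add, h1, h2, map_add]; ring
    | tmul d b =>
      simp only [Algebra.TensorProduct.tmul_mul_tmul, dd_tmul, Derivation.leibniz, smul_eq_mul,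
        TensorProduct.add_tmul]
      rw [mul_comm d (D c)]

lemma dd_one_tmul (D : Derivation k K K) (a : A) : dd D ((1 : K) ⊗ₜ[k] a) = 0 := by
  rw [dd_tmul]; simp

lemma dd_smul (D : Derivation k K K) (c : K) (x : K ⊗[k] A) :
    dd D (c • x) = D c • x + c • dd D x := by
  have h : ∀ (e : K) (z : K ⊗[k] A), e • z = (e ⊗ₜ[k] (1 : A)) * z := by
    intro e z
    induction z using TensorProduct.induction_on with
    | zero => simp
    | add y1 y2 h1 h2 => rw [mul_add, smul_add, h1, h2]
    | tmul d b => simp [TensorProduct.smul_tmul']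
  rw [h, dd_mul, dd_tmul, ← h, ← h, add_comm]

lemma dd_pow (D : Derivation k K K) (x : K ⊗[k] A) (n : ℕ) :
    dd D (x ^ (n + 1)) = ((n + 1 : ℕ) : K ⊗[k] A) * x ^ n * dd D x := by
  induction n with
  | zero => simp
  | succ n ih =>
    rw [pow_succ, dd_mul, ih]
    push_cast
    ring

lemma dd_pow_char (D : Derivation k K K) (p : ℕ) (hp : p ≠ 0) [CharP (K ⊗[k] A) p]
    (x : K ⊗[k] A) : dd D (x ^ p) = 0 := by
  obtain ⟨n, rfl⟩ := Nat.exists_eq_succ_of_ne_zero hp
  rw [Nat.succ_eq_add_one, dd_pow]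
  have : ((n + 1 : ℕ) : K ⊗[k] A) = 0 := CharP.cast_eq_zero _ _
  rw [this]; simp

/-- The `K`-linear functional on `K ⊗ A` attached to a `k`-linear map `A → K`. -/
noncomputable def lf (K : Type) [Field K] [Algebra k K] (g : A →ₗ[k] K) : K ⊗[k] A →ₗ[K] K :=
  LinearMap.liftBaseChange K g

lemma lf_tmul (g : A →ₗ[k] K) (c : K) (a : A) : lf K g (c ⊗ₜ[k] a) = c * g a := by
  rw [lf, LinearMap.liftBaseChange_tmul, smul_eq_mul]

lemma D_lf (D : Derivation k K K) (g : A →ₗ[k] K) (x : K ⊗[k] A) :
    D (lf K g x) = lf K g (dd D x) + lf K ((D : K →ₗ[k] K) ∘ₗ g) x := by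
  induction x using TensorProduct.induction_on with
  | zero => simp
  | add x1 x2 h1 h2 => rw [map_add, map_add, h1, h2, map_add, map_add, map_add]; ring
  | tmul c a =>
    rw [lf_tmul, dd_tmul, lf_tmul, lf_tmul, Derivation.leibniz]
    simp only [smul_eq_mul, LinearMap.comp_apply]
    rw [mul_comm (D c), add_comm]
    simp [mul_comm]

/-- Base change of a subspace. -/
noncomputable def bc (K : Type) [Field K] [Algebra k K] (W : Submodule k A) :
    Submodule K (K ⊗[k] A) := W.baseChange K

lemma tmul_mem_bc {W : Submodule k A} {a : A} (c : K) (ha : a ∈ W) : c ⊗ₜ[k] a ∈ bc K W :=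
  Submodule.tmul_mem_baseChange_of_mem c ha

lemma bc_induction {W : Submodule k A} {P : K ⊗[k] A → Prop} (h0 : P 0)
    (hadd : ∀ x y, P x → P y → P (x + y)) (ht : ∀ (c : K) (a : A), a ∈ W → P (c ⊗ₜ[k] a))
    (x : K ⊗[k] A) (hx : x ∈ bc K W) : P x := by
  rw [bc, Submodule.baseChange, LinearMap.mem_range] at hx
  obtain ⟨y, rfl⟩ := hx
  induction y using TensorProduct.induction_on with
  | zero => simpa using h0
  | add y1 y2 h1 h2 => rw [map_add]; exact hadd _ _ h1 h2
  | tmul c a => exact ht c a a.2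

lemma dd_mem_bc (D : Derivation k K K) {W : Submodule k A} {x : K ⊗[k] A} (hx : x ∈ bc K W) :
    dd D x ∈ bc K W := by
  refine bc_induction (P := fun x => dd D x ∈ bc K W) ?_ ?_ ?_ x hx
  · simp
  · intro x y hx hy
    rw [map_add]; exact add_mem hx hy
  · intro c a ha
    rw [dd_tmul]; exact tmul_mem_bc _ ha

lemma mul_mem_bc {U V W : Submodule k A} (h : ∀ a ∈ U, ∀ b ∈ V, a * b ∈ W)
    {x y : K ⊗[k] A} (hx : x ∈ bc K U) (hy : y ∈ bc K V) : x * y ∈ bc K W := by
  refine bc_induction (P := fun x => x * y ∈ bc K W) ?_ ?_ ?_ x hx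
  · simp
  · intro x y hx hy
    rw [add_mul]; exact add_mem hx hy
  · intro c a ha
    refine bc_induction (P := fun y => (c ⊗ₜ[k] a) * y ∈ bc K W) ?_ ?_ ?_ y hy
    · simp
    · intro x y hx hy
      rw [mul_add]; exact add_mem hx hy
    · intro d b hb
      rw [Algebra.TensorProduct.tmul_mul_tmul]; exact tmul_mem_bc _ (h a ha b hb)

lemma bc_mono {U V : Submodule k A} (h : U ≤ V) : bc K U ≤ bc K V :=
  Submodule.baseChange_mono K h

lemma finrank_bc (W : Submodule k A) :
    Module.finrank K (bc K W) = Module.finrank k W := by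
  have hinj : Function.Injective (W.subtype.baseChange K) := by
    rw [LinearMap.baseChange_eq_ltensor]
    exact Module.Flat.lTensor_preserves_injective_linearMap (M := K) W.subtype
      (Submodule.injective_subtype W)
  have h1 : Module.finrank K (LinearMap.range (W.subtype.baseChange K))
      = Module.finrank K (K ⊗[k] W) := LinearMap.finrank_range_of_inj hinj
  rw [bc, Submodule.baseChange, h1, Module.finrank_baseChange]

/-- Descent: membership in the base change of `I ⊓ ker f`. -/
lemma mem_bc_inf_ker {B : Type} [AddCommGroup B] [Module k B] (f : A →ₗ[k] B)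
    (I W : Submodule k A) (hW : ∀ a ∈ I, f a = 0 → a ∈ W) (x : K ⊗[k] A) (hx : x ∈ bc K I)
    (hfx : f.baseChange K x = 0) : x ∈ bc K W := by
  -- a section of `f` on `I`, extended to `B`
  obtain ⟨σ, hσ⟩ := (f.domRestrict I).rangeRestrict.exists_rightInverse_of_surjective
    (LinearMap.range_rangeRestrict _)
  obtain ⟨τ, hτ⟩ := LinearMap.exists_extend (I.subtype ∘ₗ σ)
  have key : ∀ a ∈ I, a - τ (f a) ∈ W := by
    intro a ha
    have h1 : τ (f a) = (σ ⟨f a, ⟨⟨a, ha⟩, rfl⟩⟩ : I) := by
      have := DFunLike.congr_fun hτ ⟨f a, ⟨⟨a, ha⟩, rfl⟩⟩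
      simpa using this
    apply hW
    · rw [h1]; exact sub_mem ha (Subtype.mem _)
    · rw [map_sub, h1]
      have h2 := DFunLike.congr_fun hσ ⟨f a, ⟨⟨a, ha⟩, rfl⟩⟩
      have h3 := congrArg Subtype.val h2
      simp only [LinearMap.comp_apply, LinearMap.id_apply] at h3
      have h4 : f (σ ⟨f a, ⟨⟨a, ha⟩, rfl⟩⟩ : I) = f a := h3
      rw [h4, sub_self]
  have key2 : x - τ.baseChange K (f.baseChange K x) ∈ bc K W := by
    refine bc_induction (P := fun x => x - τ.baseChange K (f.baseChange K x) ∈ bc K W)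
      ?_ ?_ ?_ x hx
    · simp
    · intro x y hx hy
      have : x + y - τ.baseChange K (f.baseChange K (x + y))
          = (x - τ.baseChange K (f.baseChange K x)) + (y - τ.baseChange K (f.baseChange K y)) := by
        rw [map_add, map_add]; abel
      rw [this]; exact add_mem hx hy
    · intro c a ha
      rw [LinearMap.baseChange_tmul, LinearMap.baseChange_tmul, ← TensorProduct.tmul_sub]
      exact tmul_mem_bc _ (key a ha)
  rw [hfx, map_zero, sub_zero] at key2
  exact key2

end

end Pool.Agent.Eggert
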