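import Pool.Agent.Lib.MP_6fbcf6_al.Assembly

set_option autoImplicit false

/-!
The dimension inequality for the `p`-th powers of a nilpotent ideal.
-/

namespace Pool.Agent.Eggert

open TensorProduct Module

section

variable {k A : Type} [Field k] [CommRing A] [Algebra k A] [FiniteDimensional k A]
variable (p : ℕ) [Fact p.Prime] [CharP k p] [CharP A p] (I : Ideal A)

omit [CharP k p] in
lemma finrank_span_pow :
    finrank k (Submodule.span k ((fun x : A => x ^ p) '' (I : Set A)))
      + finrank k (Ns k p I) ≤ finrank k (Is k I) := by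
  classical
  obtain ⟨C, hC⟩ := Submodule.exists_isCompl ((Ns k p I).comap (Is k I).subtype)
  have h1 : finrank k ((Ns k p I).comap (Is k I).subtype) = finrank k (Ns k p I) :=
    LinearEquiv.finrank_eq (Submodule.comapSubtypeEquivOfLe (Ns_le I p))
  have h2 := Submodule.finrank_add_eq_of_isCompl hC
  have hfree : Module.Free k C := Module.Free.of_divisionRing k C
  set c := Module.finBasis k C with hc
  have h3 : Submodule.span k ((fun x : A => x ^ p) '' (I : Set A))
      ≤ Submodule.span k (Set.range (fun r => (((c r : C) : Is k I) : A) ^ p)) := by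
    rw [Submodule.span_le]
    rintro _ ⟨x, hx, rfl⟩
    have h4 : (⟨x, hx⟩ : Is k I) ∈ (Ns k p I).comap (Is k I).subtype ⊔ C := by
      rw [hC.sup_eq_top]; trivial
    obtain ⟨y, hy, z, hz, hyz⟩ := Submodule.mem_sup.mp h4
    have h5 : x = (y : A) + (z : A) := (congrArg Subtype.val hyz).symm
    have h6 : (y : A) ^ p = 0 := hy.2
    have h7 : (z : A) = ∑ r, (c.repr ⟨z, hz⟩ r) • (((c r : C) : Is k I) : A) := by
      have h8 := c.sum_repr ⟨z, hz⟩
      have h9 := congrArg (fun w : C => ((w : Is k I) : A)) h8
      simp only [Submodule.coe_sum, Submodule.coe_smul] at h9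
      exact h9.symm
    change x ^ p ∈ _
    rw [h5, add_pow_char, h6, zero_add, h7, sum_pow_char]
    refine Submodule.sum_mem _ fun r _ => ?_
    rw [smul_pow]
    exact Submodule.smul_mem _ _ (Submodule.subset_span ⟨r, rfl⟩)
  have h4 : finrank k (Submodule.span k (Set.range (fun r => (((c r : C) : Is k I) : A) ^ p)))
      ≤ finrank k C := by
    have := finrank_range_le_card (R := k) (fun r => (((c r : C) : Is k I) : A) ^ p)
    rwa [Fintype.card_fin] at this
  have h5 := (Submodule.finrank_mono h3).trans h4
  omega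

theorem main_ineq [PerfectRing k p] [Nontrivial A] (n : ℕ) (hn : I ^ n = ⊥) :
    p * finrank k (Submodule.span k ((fun x : A => x ^ p) '' (I : Set A)))
      ≤ finrank k (Is k I) := by
  classical
  obtain ⟨q, hq⟩ := Nat.exists_eq_add_of_le (Fact.out : p.Prime).two_le
  have hq' : p = q + 2 := by omega
  let ι := Fin (finrank k A) ⊕ (ℕ × Fin (finrank k (Ls k p I)))
  let K := RF k ι
  have : CharP K p := charP_of_injective_algebraMap (algebraMap k K).injective p
  have : Nontrivial (K ⊗[k] A) := by
    apply Module.nontrivial_of_finrank_pos (R := K)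
    rw [Module.finrank_baseChange]
    exact Module.finrank_pos
  have : CharP (K ⊗[k] A) p :=
    charP_of_injective_algebraMap (algebraMap K (K ⊗[k] A)).injective p
  have h1 := assembly (K := K) p I q hq' (fun i => sv k ι (Sum.inl i))
    (fun j m => sv k ι (Sum.inr (j, m))) ?_ ?_ n hn
  · have h2 := finrank_span_pow (k := k) p I
    have h3 : (q + 2) * finrank k (Ns k p I) + (q + 2) *
        finrank k (Submodule.span k ((fun x : A => x ^ p) '' (I : Set A)))
        ≤ (q + 2) * finrank k (Is k I) := by
      rw [← mul_add]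
      exact Nat.mul_le_mul_left _ (by omega)
    have h4 : (q + 2) * finrank k (Is k I)
        = (q + 1) * finrank k (Is k I) + finrank k (Is k I) := by ring
    have h5 : p * finrank k (Submodule.span k ((fun x : A => x ^ p) '' (I : Set A)))
        = (q + 2) * finrank k (Submodule.span k ((fun x : A => x ^ p) '' (I : Set A))) := by
      rw [← hq']
    omega
  · intro j
    refine ⟨DD k ι (Sum.inl j), fun i => ?_⟩
    rw [DD_sv]
    by_cases h : j = i
    · subst h; rw [if_pos rfl, if_pos rfl]
    · rw [if_neg h, if_neg (fun h' => h (Sum.inl.inj h'))]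
  · intro j m
    refine ⟨DD k ι (Sum.inr (j, m)), fun i => ?_, fun j' m' => ?_⟩
    · rw [DD_sv, if_neg (fun h' => nomatch h')]
    · rw [DD_sv]
      by_cases h : j = j' ∧ m = m'
      · obtain ⟨rfl, rfl⟩ := h; rw [if_pos rfl, if_pos ⟨rfl, rfl⟩]
      · rw [if_neg h, if_neg (fun h' => h (Prod.mk.inj (Sum.inr.inj h')))]

end

end Pool.Agent.Eggert
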