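import Pool.Agent.Lib.MP_6fbcf6_al.Core
import Pool.Agent.Lib.MP_6fbcf6_al.Dim

set_option autoImplicit false

/-!
The inequality for a nilpotent ideal.
-/

namespace Pool.Agent.Eggert

open TensorProduct Module

section Defs

variable {k A : Type} [Field k] [CommRing A] [Algebra k A] (I : Ideal A)

/-- The ideal `I` as a subspace. -/
def Is (k : Type) {A : Type} [Field k] [CommRing A] [Algebra k A] (I : Ideal A) :
    Submodule k A := I.restrictScalars k

lemma mem_Is {I : Ideal A} {a : A} : a ∈ Is k I ↔ a ∈ I := Iff.rfl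

/-- The elements of `I` with vanishing `p`-th power. -/
def Ns (k : Type) {A : Type} [Field k] [CommRing A] [Algebra k A] (p : ℕ) [Fact p.Prime]
    [CharP A p] (I : Ideal A) : Submodule k A where
  carrier := {x | x ∈ I ∧ x ^ p = 0}
  zero_mem' := ⟨I.zero_mem, zero_pow (Fact.out : p.Prime).ne_zero⟩
  add_mem' := by
    rintro x y ⟨hx, hx'⟩ ⟨hy, hy'⟩
    exact ⟨I.add_mem hx hy, by rw [add_pow_char, hx', hy', add_zero]⟩
  smul_mem' := by
    rintro c x ⟨hx, hx'⟩
    refine ⟨(Is k I).smul_mem c hx, ?_⟩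
    rw [smul_pow, hx', smul_zero]

variable (p : ℕ) [Fact p.Prime] [CharP A p]

lemma mem_Ns {a : A} : a ∈ Ns k p I ↔ a ∈ I ∧ a ^ p = 0 := Iff.rfl

lemma Ns_le : Ns k p I ≤ Is k I := fun _ h => h.1

lemma mul_mem_Ns {a b : A} (h : a ∈ Ns k p I) : b * a ∈ Ns k p I :=
  ⟨I.mul_mem_left b h.1, by rw [mul_pow, h.2, mul_zero]⟩

/-- The elements of `I` which `I` multiplies into `Ns`. -/
def Ls (k : Type) {A : Type} [Field k] [CommRing A] [Algebra k A] (p : ℕ) [Fact p.Prime]
    [CharP A p] (I : Ideal A) : Submodule k A where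
  carrier := {x | x ∈ I ∧ ∀ b ∈ I, b * x ∈ Ns k p I}
  zero_mem' := ⟨I.zero_mem, fun b _ => by rw [mul_zero]; exact Submodule.zero_mem _⟩
  add_mem' := by
    rintro x y ⟨hx, hx'⟩ ⟨hy, hy'⟩
    exact ⟨I.add_mem hx hy, fun b hb => by rw [mul_add]; exact add_mem (hx' b hb) (hy' b hb)⟩
  smul_mem' := by
    rintro c x ⟨hx, hx'⟩
    refine ⟨(Is k I).smul_mem c hx, fun b hb => ?_⟩
    rw [mul_smul_comm]; exact Submodule.smul_mem _ _ (hx' b hb)

/-- The annihilator of `I` in `I`. -/
def Ss (k : Type) {A : Type} [Field k] [CommRing A] [Algebra k A] (I : Ideal A) :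
    Submodule k A where
  carrier := {x | x ∈ I ∧ ∀ b ∈ I, b * x = 0}
  zero_mem' := ⟨I.zero_mem, fun b _ => by rw [mul_zero]⟩
  add_mem' := by
    rintro x y ⟨hx, hx'⟩ ⟨hy, hy'⟩
    exact ⟨I.add_mem hx hy, fun b hb => by rw [mul_add, hx' b hb, hy' b hb, add_zero]⟩
  smul_mem' := by
    rintro c x ⟨hx, hx'⟩
    refine ⟨(Is k I).smul_mem c hx, fun b hb => ?_⟩
    rw [mul_smul_comm, hx' b hb, smul_zero]

lemma Ls_le : Ls k p I ≤ Is k I := fun _ h => h.1

lemma Ss_le_Ns : Ss k I ≤ Ns k p I := by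
  rintro x ⟨hx, hx'⟩
  refine ⟨hx, ?_⟩
  have h2 : 2 ≤ p := (Fact.out : p.Prime).two_le
  obtain ⟨r, rfl⟩ := Nat.exists_eq_add_of_le h2
  rw [add_comm, pow_add, pow_two, hx' x hx, mul_zero]

end Defs

section Descent

variable {k K A : Type} [Field k] [Field K] [Algebra k K] [CommRing A] [Algebra k A]
  [FiniteDimensional k A]
variable (p : ℕ) [Fact p.Prime] [CharP k p] [PerfectRing k p] [CharP A p]
  [CharP K p] [CharP (K ⊗[k] A) p] (I : Ideal A)

lemma desc_N (x : K ⊗[k] A) (hx : x ∈ bc K (Is k I)) (h : x ^ p = 0) : x ∈ bc K (Ns k p I) := by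
  set e := Module.finBasis k A with he
  refine mem_bc_of_functionals (fun j => rt p (e.coord j)) (Is k I) _ ?_ x hx ?_
  · intro a ha h
    refine ⟨ha, ?_⟩
    apply e.forall_coord_eq_zero_iff.mp
    intro j
    rw [← rt_pow, h j, zero_pow (Fact.out : p.Prime).ne_zero]
  · intro j
    have h1 := gK_rt_pow (K := K) p (e.coord j) x
    rw [h, map_zero] at h1
    exact pow_eq_zero_iff (Fact.out : p.Prime).ne_zero |>.mp h1

lemma desc_L (x : K ⊗[k] A) (hx : x ∈ bc K (Is k I))
    (h : ∀ b ∈ I, ((1 : K) ⊗ₜ[k] b) * x ∈ bc K (Ns k p I)) : x ∈ bc K (Ls k p I) := by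
  set e := Module.finBasis k A with he
  set c := Module.finBasis k (Is k I) with hc
  refine mem_bc_of_functionals (J := Fin (finrank k A) × Fin (finrank k (Is k I)))
    (fun j => (rt p (e.coord j.1)) ∘ₗ LinearMap.mulLeft k (c j.2 : A)) (Is k I) _ ?_ x hx ?_
  · intro a ha h
    refine ⟨ha, ?_⟩
    have h1 : ∀ r, (c r : A) * a ∈ Ns k p I := by
      intro r
      refine ⟨I.mul_mem_left _ ha, ?_⟩
      apply e.forall_coord_eq_zero_iff.mp
      intro j
      have := h (j, r)
      simp only [LinearMap.comp_apply, LinearMap.mulLeft_apply] at this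
      rw [← rt_pow, this, zero_pow (Fact.out : p.Prime).ne_zero]
    intro b hb
    have h2 : (⟨b, hb⟩ : Is k I) ∈ Submodule.span k (Set.range c) := by
      rw [c.span_eq]; trivial
    have h3 : ∀ z : Is k I, z ∈ Submodule.span k (Set.range c) → (z : A) * a ∈ Ns k p I := by
      intro z hz
      refine Submodule.span_induction (p := fun (z : Is k I) _ => (z : A) * a ∈ Ns k p I) ?_ ?_ ?_ ?_ hz
      · rintro _ ⟨r, rfl⟩; exact h1 r
      · simp
      · intro y z _ _ hy hz
        rw [Submodule.coe_add, add_mul]; exact add_mem hy hz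
      · intro t y _ hy
        rw [Submodule.coe_smul, smul_mul_assoc]; exact Submodule.smul_mem _ _ hy
    exact h3 _ h2
  · rintro ⟨j, r⟩
    rw [gK_comp_mul]
    refine gK_eq_zero_of_mem (W := Ns k p I) _ ?_ (h (c r) (c r).2)
    intro a ha
    have h1 := rt_pow p (e.coord j) a
    rw [ha.2, map_zero] at h1
    exact pow_eq_zero_iff (Fact.out : p.Prime).ne_zero |>.mp h1

omit [CharP k p] [PerfectRing k p] [CharP A p] [CharP K p] [CharP (K ⊗[k] A) p]
  [Fact p.Prime] in
lemma desc_S (x : K ⊗[k] A) (hx : x ∈ bc K (Is k I))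
    (h : ∀ b ∈ I, ((1 : K) ⊗ₜ[k] b) * x = 0) : x ∈ bc K (Ss k I) := by
  set e := Module.finBasis k A with he
  set c := Module.finBasis k (Is k I) with hc
  refine mem_bc_of_functionals (J := Fin (finrank k A) × Fin (finrank k (Is k I)))
    (fun j => (e.coord j.1) ∘ₗ LinearMap.mulLeft k (c j.2 : A)) (Is k I) _ ?_ x hx ?_
  · intro a ha h
    refine ⟨ha, ?_⟩
    have h1 : ∀ r, (c r : A) * a = 0 := by
      intro r
      apply e.forall_coord_eq_zero_iff.mp
      intro j
      exact h (j, r)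
    intro b hb
    have h2 : (⟨b, hb⟩ : Is k I) ∈ Submodule.span k (Set.range c) := by
      rw [c.span_eq]; trivial
    have h3 : ∀ z : Is k I, z ∈ Submodule.span k (Set.range c) → (z : A) * a = 0 := by
      intro z hz
      refine Submodule.span_induction (p := fun (z : Is k I) _ => (z : A) * a = 0) ?_ ?_ ?_ ?_ hz
      · rintro _ ⟨r, rfl⟩; exact h1 r
      · simp
      · intro y z _ _ hy hz
        rw [Submodule.coe_add, add_mul, hy, hz, add_zero]
      · intro t y _ hy
        rw [Submodule.coe_smul, smul_mul_assoc, hy, smul_zero]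
    exact h3 _ h2
  · rintro ⟨j, r⟩
    rw [gK_comp_mul, h (c r) (c r).2, map_zero]

end Descent

end Pool.Agent.Eggert
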