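import Pool.Agent.Lib.MP_6fbcf6_al.Ext

set_option autoImplicit false

/-!
The `p`-th root functionals, and descent statements.
-/

namespace Pool.Agent.Eggert

open TensorProduct

section

variable {k K A : Type} [Field k] [Field K] [Algebra k K] [CommRing A] [Algebra k A]

/-- The `K`-linear functional attached to a `k`-valued functional. -/
noncomputable def gK (K : Type) [Field K] [Algebra k K] (g : A →ₗ[k] k) : K ⊗[k] A →ₗ[K] K :=
  lf K ((Algebra.linearMap k K) ∘ₗ g)

lemma gK_tmul (g : A →ₗ[k] k) (c : K) (a : A) : gK K g (c ⊗ₜ[k] a) = c * algebraMap k K (g a) := by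
  rw [gK, lf_tmul]; rfl

lemma gK_eq_zero_of_mem {W : Submodule k A} (g : A →ₗ[k] k) (hg : ∀ a ∈ W, g a = 0)
    {x : K ⊗[k] A} (hx : x ∈ bc K W) : gK K g x = 0 := by
  refine bc_induction (P := fun x => gK K g x = 0) ?_ ?_ ?_ x hx
  · simp
  · intro x y hx hy; rw [map_add, hx, hy, add_zero]
  · intro c a ha; rw [gK_tmul, hg a ha]; simp

lemma gK_comp_mul (g : A →ₗ[k] k) (b : A) (x : K ⊗[k] A) :
    gK K (g ∘ₗ LinearMap.mulLeft k b) x = gK K g (((1 : K) ⊗ₜ[k] b) * x) := by
  induction x using TensorProduct.induction_on with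
  | zero => simp
  | add x1 x2 h1 h2 => rw [map_add, h1, h2, mul_add, map_add]
  | tmul c a =>
    rw [gK_tmul, Algebra.TensorProduct.tmul_mul_tmul, gK_tmul]
    simp

lemma mem_bc_of_functionals {J : Type} [Fintype J] (f : J → (A →ₗ[k] k))
    (I W : Submodule k A) (hW : ∀ a ∈ I, (∀ j, f j a = 0) → a ∈ W) (x : K ⊗[k] A)
    (hx : x ∈ bc K I) (hfx : ∀ j, gK K (f j) x = 0) : x ∈ bc K W := by
  classical
  refine mem_bc_inf_ker (LinearMap.pi f) I W ?_ x hx ?_
  · intro a ha h
    exact hW a ha (fun j => congrFun h j)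
  · have key : ∀ x : K ⊗[k] A, (LinearMap.pi f).baseChange K x
        = ∑ j, (gK K (f j) x) ⊗ₜ[k] (Pi.single j (1 : k) : J → k) := by
      intro x
      induction x using TensorProduct.induction_on with
      | zero => simp
      | add x1 x2 h1 h2 =>
        rw [map_add, h1, h2, ← Finset.sum_add_distrib]
        refine Finset.sum_congr rfl fun j _ => ?_
        rw [map_add, TensorProduct.add_tmul]
      | tmul c a =>
        rw [LinearMap.baseChange_tmul]
        have h1 : (LinearMap.pi f) a = ∑ j, (f j a) • (Pi.single j (1 : k) : J → k) := by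
          ext i
          simp [Finset.sum_apply, Pi.single_apply]
        rw [h1, TensorProduct.tmul_sum]
        refine Finset.sum_congr rfl fun j _ => ?_
        rw [gK_tmul, TensorProduct.tmul_smul, TensorProduct.smul_tmul']
        congr 1
        rw [Algebra.smul_def, mul_comm]
    rw [key x]
    refine Finset.sum_eq_zero fun j _ => ?_
    rw [hfx j, TensorProduct.zero_tmul]

lemma eq_zero_of_functionals {J : Type} [Fintype J] (e : Module.Basis J k A) (x : K ⊗[k] A)
    (h : ∀ j, gK K (e.coord j) x = 0) : x = 0 := by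
  have h1 : x ∈ bc K (⊥ : Submodule k A) := by
    refine mem_bc_of_functionals (fun j => e.coord j) ⊤ ⊥ ?_ x ?_ h
    · intro a _ ha
      rw [Submodule.mem_bot]
      exact e.forall_coord_eq_zero_iff.mp ha
    · rw [bc, Submodule.baseChange_top]; trivial
  rw [bc, Submodule.baseChange_bot] at h1
  exact (Submodule.mem_bot _).mp h1

variable (p : ℕ) [Fact p.Prime] [CharP k p] [PerfectRing k p] [CharP A p]

/-- The `p`-th root of the functional `x ↦ g (x ^ p)`. -/
noncomputable def rt (g : A →ₗ[k] k) : A →ₗ[k] k where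
  toFun x := (frobeniusEquiv k p).symm (g (x ^ p))
  map_add' x y := by rw [add_pow_char, map_add, map_add]
  map_smul' c x := by
    rw [smul_pow, map_smul, smul_eq_mul, map_mul, RingHom.id_apply, smul_eq_mul]
    congr 1
    exact frobeniusEquiv_symm_apply_frobenius k p c

lemma rt_pow (g : A →ₗ[k] k) (x : A) : (rt p g x) ^ p = g (x ^ p) :=
  frobeniusEquiv_symm_pow_p k p _

lemma gK_rt_pow [CharP K p] [CharP (K ⊗[k] A) p] (g : A →ₗ[k] k) (x : K ⊗[k] A) :
    (gK K (rt p g) x) ^ p = gK K g (x ^ p) := by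
  induction x using TensorProduct.induction_on with
  | zero =>
    rw [map_zero, zero_pow (Fact.out : p.Prime).ne_zero, zero_pow (Fact.out : p.Prime).ne_zero,
      map_zero]
  | add x1 x2 h1 h2 => rw [map_add, add_pow_char, add_pow_char, map_add, h1, h2]
  | tmul c a =>
    rw [gK_tmul, mul_pow, ← map_pow, rt_pow, Algebra.TensorProduct.tmul_pow, gK_tmul]

end

end Pool.Agent.Eggert
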